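import Pool.Agent.TH198.AT.Stmts

/-!
# The de Almeida–Thouless line of the SK model: Stein's lemma with exponential growth (STEIN)
-/

set_option autoImplicit false

open MeasureTheory ProbabilityTheory Set

namespace Pool.TH479.AT

open Pool.TH198.AT

/-- the Gaussian density -/
noncomputable def pdf (x : ℝ) : ℝ := gaussianPDFReal 0 1 x

lemma pdf_eq (x : ℝ) : pdf x = (√(2 * Real.pi))⁻¹ * Real.exp (-x ^ 2 / 2) := by
  simp [pdf, gaussianPDFReal]

lemma pdf_nonneg (x : ℝ) : 0 ≤ pdf x := gaussianPDFReal_nonneg 0 1 x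

lemma hasDerivAt_pdf (x : ℝ) : HasDerivAt pdf (-(x * pdf x)) x := by
  have h1 : HasDerivAt (fun x : ℝ => -x ^ 2 / 2) (-x) x := by
    have h := ((hasDerivAt_pow 2 x).neg).div_const 2
    refine h.congr_deriv ?_
    norm_num
    ring
  have h2 := (h1.exp).const_mul ((√(2 * Real.pi))⁻¹)
  have h3 : pdf = fun x => (√(2 * Real.pi))⁻¹ * Real.exp (-x ^ 2 / 2) := funext pdf_eq
  rw [h3]
  refine h2.congr_deriv ?_
  ring

lemma continuous_pdf : Continuous pdf :=
  continuous_iff_continuousAt.2 fun x => (hasDerivAt_pdf x).continuousAt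

lemma E1_eq (F : ℝ → ℝ) : E1 F = ∫ z, F z * pdf z := by
  rw [E1, integral_gaussianReal_eq_integral_smul one_ne_zero]
  refine integral_congr_ae (Filter.Eventually.of_forall fun z => ?_)
  simp only [smul_eq_mul, pdf]
  ring

/-- integrability of functions of exponential growth against the Gaussian density -/
lemma integrable_growth (F : ℝ → ℝ) (hF : Continuous F) (A B : ℝ)
    (hb : ∀ x, |F x| ≤ A * Real.exp (B * |x|)) : Integrable (fun x => F x * pdf x) := by
  have hA : 0 ≤ A := by
    have h := (abs_nonneg _).trans (hb 0)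
    have h2 := Real.exp_pos (B * |(0 : ℝ)|)
    by_contra hA
    push Not at hA
    nlinarith
  have hint : Integrable (fun x : ℝ => (A * Real.exp (B ^ 2) * (√(2 * Real.pi))⁻¹) *
      Real.exp (-(1 / 4) * x ^ 2)) :=
    (integrable_exp_neg_mul_sq (by norm_num : (0 : ℝ) < 1 / 4)).const_mul _
  refine hint.mono' (hF.mul continuous_pdf).aestronglyMeasurable
    (Filter.Eventually.of_forall fun x => ?_)
  rw [Real.norm_eq_abs, abs_mul, abs_of_nonneg (pdf_nonneg x), pdf_eq]
  have h1 : A * Real.exp (B * |x|) * ((√(2 * Real.pi))⁻¹ * Real.exp (-x ^ 2 / 2)) ≤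
      (A * Real.exp (B ^ 2) * (√(2 * Real.pi))⁻¹) * Real.exp (-(1 / 4) * x ^ 2) := by
    have h2 : Real.exp (B * |x|) * Real.exp (-x ^ 2 / 2) ≤
        Real.exp (B ^ 2) * Real.exp (-(1 / 4) * x ^ 2) := by
      rw [← Real.exp_add, ← Real.exp_add, Real.exp_le_exp]
      have h3 : x ^ 2 = |x| ^ 2 := (sq_abs x).symm
      rw [h3]
      nlinarith [sq_nonneg (|x| / 2 - B)]
    have h4 : 0 ≤ A * (√(2 * Real.pi))⁻¹ := by positivity
    calc A * Real.exp (B * |x|) * ((√(2 * Real.pi))⁻¹ * Real.exp (-x ^ 2 / 2))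
        = (A * (√(2 * Real.pi))⁻¹) * (Real.exp (B * |x|) * Real.exp (-x ^ 2 / 2)) := by ring
      _ ≤ (A * (√(2 * Real.pi))⁻¹) * (Real.exp (B ^ 2) * Real.exp (-(1 / 4) * x ^ 2)) :=
          mul_le_mul_of_nonneg_left h2 h4
      _ = _ := by ring
  refine le_trans (mul_le_mul_of_nonneg_right (hb x) ?_) h1
  positivity

/-- Stein's lemma with exponential growth -/
theorem t_STEIN : St_STEIN := by
  intro g g1 C K hg hg1 hbg hbg1
  have hgc : Continuous g := continuous_iff_continuousAt.2 fun x => (hg x).continuousAt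
  have hC : 0 ≤ C := by
    have h := (abs_nonneg _).trans (hbg 0)
    have h2 := Real.exp_pos (K * |(0 : ℝ)|)
    by_contra hA
    push Not at hA
    nlinarith
  have i1 : Integrable (fun x => g x * pdf x) := integrable_growth g hgc C K hbg
  have i2 : Integrable (fun x => g1 x * pdf x) := integrable_growth g1 hg1 C K hbg1
  have i3 : Integrable (fun x => (x * g x) * pdf x) := by
    refine integrable_growth (fun x => x * g x) (continuous_id.mul hgc) C (K + 1) fun x => ?_
    rw [abs_mul]
    have h1 : |x| ≤ Real.exp |x| := by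
      have := Real.add_one_le_exp |x|
      linarith
    calc |x| * |g x| ≤ Real.exp |x| * (C * Real.exp (K * |x|)) :=
          mul_le_mul h1 (hbg x) (abs_nonneg _) (Real.exp_pos _).le
      _ = C * Real.exp ((K + 1) * |x|) := by
          rw [add_mul, one_mul, Real.exp_add]; ring
  rw [E1_eq, E1_eq]
  have key := integral_mul_deriv_eq_deriv_mul_of_integrable (u := g) (v := pdf) (u' := g1)
    (v' := fun x => -(x * pdf x)) (fun x _ => hg x) (fun x _ => hasDerivAt_pdf x)
    (i3.neg.congr (Filter.Eventually.of_forall fun x => by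
      simp only [Pi.neg_apply, Pi.mul_apply]; ring)) i2 i1
  have h1 : (∫ z, z * g z * pdf z) = -∫ x, g x * (-(x * pdf x)) := by
    rw [← integral_neg]
    refine integral_congr_ae (Filter.Eventually.of_forall fun z => ?_)
    simp only
    ring
  rw [h1, key, neg_neg]

end Pool.TH479.AT
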